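import Pool.Agent.W343.BSD.KidaFinal

/-!
The order of vanishing of the `L`-function of an elliptic curve over Galois extensions of prime
power degree of a function field.
-/

set_option autoImplicit false
set_option linter.all false

open Polynomial Pool.Agent.W343.BSD

namespace Pool.Agent.Results.MP_48b749_nt.PrimePowerExtensions

/-- The multiplicity of the root `1 / q` of an integral polynomial modulo `l`. -/
noncomputable def multAt (l q : ℕ) (P : ℤ[X]) : ℕ :=
  (P.map (Int.castRingHom (ZMod l))).rootMultiplicity (q : ZMod l)⁻¹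

/-- `e v` is the ramification index in `K'` of the place `v` of `K`. -/
def IsRamIndex {k K : Type} (k' K' : Type) [Field k] [Field K] [Algebra k K] [Field k'] [Field K']
    [Algebra k' K'] [Algebra K K'] (e : FF.Place k K → ℕ) : Prop :=
  ∀ (v : FF.Place k K) (w : FF.Place k' K') (n : ℕ), 0 < n →
    (∀ x : K, w.ord (algebraMap K K' x) = n * v.ord x) → n = e v

open Classical in
/-- The number of nonsingular points, with the point at infinity, of the reduction at `v`. -/
noncomputable def nsCount {k K : Type} [Field k] [Field K] [Algebra k K] (v : FF.Place k K)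
    (a b : K) : ℤ :=
  Nat.card (S.Res v) - S.trace v a b + if v.ord (minDisc v a b) = 0 then 1 else 0

theorem mult_eq_zero {l q : ℕ} [Fact l.Prime] (hq : (q : ZMod l) ≠ 0) {P : ℤ[X]}
    (h : ¬ (l : ℤ) ∣ P.reverse.eval (q : ℤ)) : multAt l q P = 0 := by
  unfold multAt
  apply rootMultiplicity_eq_zero
  rw [IsRoot.def, eval_map]
  intro h0
  have hx : (q : ZMod l)⁻¹ ≠ 0 := inv_ne_zero hq
  let _ : Invertible (q : ZMod l)⁻¹ := invertibleOfNonzero hx
  have h1 := eval₂_reverse_mul_pow (Int.castRingHom (ZMod l)) (q : ZMod l)⁻¹ P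
  rw [h0] at h1
  have h2 := (mul_eq_zero.1 h1).resolve_right (pow_ne_zero _ hx)
  rw [invOf_eq_inv, inv_inv] at h2
  apply h
  have h3 : ((P.reverse.eval (q : ℤ) : ℤ) : ZMod l) = 0 := by
    rw [← h2, ← eq_intCast (Int.castRingHom (ZMod l)), ← eval₂_at_apply]
    simp
  exact (ZMod.intCast_zmod_eq_zero_iff_dvd _ _).1 h3

theorem mult_loc_eq_zero {k K : Type} [Field k] [Finite k] [Field K] [Algebra k K] [FF.IsFF k K]
    {l : ℕ} [Fact l.Prime] (hq : ((Nat.card k : ℕ) : ZMod l) ≠ 0) {a b : K}
    (hE : 4 * a ^ 3 + 27 * b ^ 2 ≠ 0) (v : FF.Place k K)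
    (h : ¬ (l : ℤ) ∣ nsCount v a b) :
    (locML l v a b).rootMultiplicity ((Nat.card k : ℕ) : ZMod l)⁻¹ = 0 := by
  classical
  apply rootMultiplicity_eq_zero
  rw [IsRoot.def]
  intro h0
  apply h
  set q : ZMod l := ((Nat.card k : ℕ) : ZMod l) with hqdef
  have hcard : ((Nat.card v.RF : ℕ) : ZMod l) = q ^ v.deg := by
    rw [Module.natCard_eq_pow_finrank (K := k) (V := v.RF)]
    push_cast
    rfl
  have hqd : q⁻¹ ^ v.deg * q ^ v.deg = 1 := by
    rw [← mul_pow, inv_mul_cancel₀ hq, one_pow]
  refine (ZMod.intCast_zmod_eq_zero_iff_dvd _ _).1 ?_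
  rw [locML_eq] at h0
  unfold nsCount
  rw [S.trace_eq]
  by_cases hd : v.ord (minDisc v a b) = 0
  · rw [if_pos ((S.ord_disc_iff v hE).1 hd), eval_add, eval_sub, eval_one, eval_mul, eval_C,
      eval_pow, eval_X, eval_mul, eval_C, eval_pow, eval_X, hcard] at h0
    rw [if_pos hd]
    push_cast
    have e1 : ((Nat.card (S.Res v) : ℕ) : ZMod l) = q ^ v.deg := hcard
    rw [e1]
    have e2 : q⁻¹ ^ (2 * v.deg) = (q⁻¹ ^ v.deg) ^ 2 := by rw [← pow_mul, mul_comm]
    rw [e2] at h0
    linear_combination q ^ v.deg * h0 + (((trace v a b : ℤ) : ZMod l) -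
      q ^ v.deg * q⁻¹ ^ v.deg - 1) * hqd
  · rw [if_neg (fun h2 => hd ((S.ord_disc_iff v hE).2 h2)), eval_add, eval_sub, eval_one, eval_mul,
      eval_C, eval_pow, eval_X, eval_zero] at h0
    rw [if_neg hd]
    push_cast
    have e1 : ((Nat.card (S.Res v) : ℕ) : ZMod l) = q ^ v.deg := hcard
    rw [e1]
    linear_combination q ^ v.deg * h0 + ((trace v a b : ℤ) : ZMod l) * hqd

/-- Let `E : y ^ 2 = x ^ 3 + a x + b` be an elliptic curve over the function field `K` of a curve
over the finite field `k` with `q` elements of characteristic at least `5`, with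
`L(T, E/K) = P(T)` (a polynomial), `l` a prime different from the characteristic, and `K'` a finite
Galois extension of `K` of degree a power of `l`, with field of constants `k'`. If `(1 - q' T) ^ m`
divides `L(T, E/K')`, where `q'` is the number of elements of `k'`, then
`[k' : k] m ≤ [K' : K] mult(P) + ∑_v ([K' : K] - [K' : K] / e_v) mult(L_v)`, the sum over the
ramified places `v`, where `mult` is the multiplicity of the root `1 / q` modulo `l` and `L_v` the
Euler factor at `v`. In particular, `L(1 / q', E/K')` is not zero if `l` divides neither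
`q ^ deg P * P(1 / q)` nor the number of nonsingular points of the reduction of `E` at any ramified
place. -/
theorem result (k K k' K' : Type) [Field k] [Finite k] [Field K] [Algebra k K] [Field k']
    [Finite k'] [Field K'] [Algebra k' K'] [Algebra k k'] [Algebra k K'] [Algebra K K']
    [IsScalarTower k K K'] [IsScalarTower k k' K'] (h6 : (6 : k) ≠ 0)
    (hK : IsCurveField k K) (hK' : IsCurveField k' K') [FiniteDimensional K K'] [IsGalois K K']
    (l s : ℕ) (hl : l.Prime) (hlk : (l : k) ≠ 0) (hn : Module.finrank K K' = l ^ s)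
    (e : FF.Place k K → ℕ) (he : IsRamIndex k' K' e) (B : Finset (FF.Place k K))
    (hB : ∀ v, v ∉ B → e v = 1) (a b : K) (hE : 4 * a ^ 3 + 27 * b ^ 2 ≠ 0)
    (P : ℤ[X]) (hP : S.Lfun k a b = (P : PowerSeries ℤ)) :
    (∀ m : ℕ, S.VanishesTo k' (algebraMap K K' a) (algebraMap K K' b) m →
      Module.finrank k k' * m ≤ Module.finrank K K' * multAt l (Nat.card k) P +
        ∑ v ∈ B, (Module.finrank K K' - Module.finrank K K' / e v) *
          multAt l (Nat.card k) (S.locFactor v a b)) ∧
    (¬ (l : ℤ) ∣ P.reverse.eval (Nat.card k : ℤ) → (∀ v ∈ B, ¬ (l : ℤ) ∣ nsCount v a b) →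
      ¬ S.VanishesTo k' (algebraMap K K' a) (algebraMap K K' b) 1) := by
  have := Fact.mk hl
  have hFF : FF.IsFF k K := ⟨hK.essFiniteType, hK.trdeg_eq_one⟩
  have hFF' : FF.IsFF k' K' := ⟨hK'.essFiniteType, hK'.trdeg_eq_one⟩
  have hFFr : FF.IsFF k K' := isFF_of_finite (K := K)
  have he' : ∀ (v : FF.Place k K) (w : FF.Place k K') (n : ℕ), FF.Over w v n → n = e v :=
    fun v w n h => he v (upPlace w) n h.1 h.2
  rw [S.lfun_eq hE] at hP
  have hE' : 4 * algebraMap K K' a ^ 3 + 27 * algebraMap K K' b ^ 2 ≠ 0 := by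
    have e1 : 4 * algebraMap K K' a ^ 3 + 27 * algebraMap K K' b ^ 2 =
        algebraMap K K' (4 * a ^ 3 + 27 * b ^ 2) := by
      rw [map_add, map_mul, map_mul, map_pow, map_pow, map_ofNat, map_ofNat]
    rw [e1]
    exact (_root_.map_ne_zero _).2 hE
  have main : ∀ m : ℕ, S.VanishesTo k' (algebraMap K K' a) (algebraMap K K' b) m →
      Module.finrank k k' * m ≤ Module.finrank K K' * multAt l (Nat.card k) P +
        ∑ v ∈ B, (Module.finrank K K' - Module.finrank K K' / e v) *
          multAt l (Nat.card k) (S.locFactor v a b) := by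
    rintro m ⟨G, hG⟩
    rw [S.lfun_eq hE'] at hG
    have h := kida_final h6 hK.algClosed hlk hn hE he' B hB hP m G hG
    simp only [S.locFactor_eq _ hE]
    exact h
  refine ⟨main, fun h1 h2 h3 => ?_⟩
  have h4 := main 1 h3
  have hq := card_ne_zero_mod (k := k) hlk
  rw [mult_eq_zero hq h1, mul_zero, zero_add, Finset.sum_eq_zero, mul_one] at h4
  · have : FiniteDimensional k k' := Module.Finite.of_finite
    have : 0 < Module.finrank k k' := Module.finrank_pos
    omega
  · intro v hv
    have h5 := mult_loc_eq_zero hq hE v (h2 v hv)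
    have h6 : multAt l (Nat.card k) (S.locFactor v a b) = 0 := by
      rw [S.locFactor_eq v hE]
      exact h5
    rw [h6, mul_zero]

end Pool.Agent.Results.MP_48b749_nt.PrimePowerExtensions
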