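import Pool.Agent.W343.BSD.Stmt

/-!
An upper bound for the order of vanishing of the `L`-function of an elliptic curve over a function
field at `T = 1 / q`, in terms of the zeta functions modulo two of the fields generated by the
points of order two.
-/

set_option autoImplicit false
set_option linter.all false

open Polynomial Pool.Agent.W343.BSD

namespace Pool.Agent.Results.MP_48b749_nt.TwoDescentBound

/-- The multiplicity of the root `1` of an integral polynomial modulo two. -/
noncomputable def muTwo (P : ℤ[X]) : ℕ := (P.map (Int.castRingHom (ZMod 2))).rootMultiplicity 1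

theorem muTwo_odd {P : ℤ[X]} {h : ℕ} (hP : P.eval 1 = h) (hodd : Odd h) : muTwo P = 0 := by
  unfold muTwo
  apply rootMultiplicity_eq_zero
  rw [IsRoot.def]
  have h1 : (P.map (Int.castRingHom (ZMod 2))).eval 1 = ((h : ℕ) : ZMod 2) := by
    have h2 := eval_map_apply (Int.castRingHom (ZMod 2)) (1 : ℤ) (p := P)
    rw [map_one] at h2
    rw [h2, hP]
    simp
  rw [h1]
  intro h0
  have h3 := (ZMod.natCast_eq_zero_iff h 2).1 h0
  obtain ⟨c, hc⟩ := hodd
  omega

theorem constDeg_eq_one {k K : Type} [Field k] [Field K] [Algebra k K]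
    (h : ∀ x : K, IsAlgebraic k x → x ∈ (algebraMap k K).range) : constDeg k K = 1 := by
  unfold constDeg
  have h1 : algebraicClosure k K = ⊥ := by
    rw [eq_bot_iff]
    intro x hx
    obtain ⟨c, hc⟩ := h x (mem_algebraicClosure_iff.1 hx)
    rw [IntermediateField.mem_bot]
    exact ⟨c, hc⟩
  rw [h1, IntermediateField.finrank_bot]

/-- `K[x] / (x ^ 3 + a x + b)` is the product of the fields `L i = K(θ i)`. -/
def IsTwoDivision {K : Type} [Field K] (a b : K) {ι : Type} [Fintype ι] {L : ι → Type}
    [∀ i, Field (L i)] [∀ i, Algebra K (L i)] (θ : ∀ i, L i) : Prop :=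
  (∀ i, IntermediateField.adjoin K {θ i} = ⊤) ∧ ∏ i, minpoly K (θ i) = X ^ 3 + C a * X + C b

/-- `P` is the numerator of the zeta function of `F` and its value at `1` is the class number. -/
def IsNumerator (k F : Type) [Field k] [Field F] [Algebra k F] (P : ℤ[X]) : Prop :=
  S.IsZetaNum k F P ∧ P.eval 1 = S.classNumber k F

/-- The sum of the local terms `localTerm v * twoPart (deg v)` over all places `v`. -/
noncomputable def localSum (k : Type) {K : Type} [Field k] [Field K] [Algebra k K] (a b : K) : ℕ :=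
  ∑ᶠ v : FF.Place k K, S.localTerm v a b * twoPart (S.deg v)

/-- Let `K` be the function field of a curve over the finite field `k` with `q` elements, of
characteristic at least `5`, and `E : y ^ 2 = x ^ 3 + a x + b` an elliptic curve over `K`. Let
`K[x] / (x ^ 3 + a x + b)` be the product of the fields `L i`, let `r i` be the degree of the field
of constants of `L i`. If `L(T, E)` is `(1 - q T) ^ m` times a polynomial, then
`m + mu_K + 2 ∑ twoPart (r i) ≤ 2 + ∑ mu_{L i} + ∑_v localTerm_v * twoPart (deg v)`,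
where `mu` denotes the multiplicity of the root `1` of the numerator of the zeta function modulo
two, which is zero if the class number is odd. -/
theorem result (k K : Type) [Field k] [Finite k] [Field K] [Algebra k K] (h6 : (6 : k) ≠ 0)
    (hK : IsCurveField k K) (a b : K) (hE : 4 * a ^ 3 + 27 * b ^ 2 ≠ 0)
    (ι : Type) [Fintype ι] (L : ι → Type) [∀ i, Field (L i)] [∀ i, Algebra k (L i)]
    [∀ i, Algebra K (L i)] [∀ i, IsScalarTower k K (L i)] (θ : ∀ i, L i)
    (hθ : IsTwoDivision a b θ) :
    ∃ (PK : ℤ[X]) (PL : ι → ℤ[X]), IsNumerator k K PK ∧ (∀ i, IsNumerator k (L i) (PL i)) ∧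
      ∀ m : ℕ, S.VanishesTo k a b m →
        m + muTwo PK + 2 * ∑ i, twoPart (constDeg k (L i)) ≤
            2 + ∑ i, muTwo (PL i) + localSum k a b ∧
        ((∀ i, Odd (S.classNumber k (L i))) →
          m + 2 * ∑ i, twoPart (constDeg k (L i)) ≤ 2 + localSum k a b) := by
  have hFF : FF.IsFF k K := ⟨hK.essFiniteType, hK.trdeg_eq_one⟩
  have hF := isFamily_of_prod hE hθ.1 hθ.2
  have hfd := hF.fd
  have hFFL : ∀ i, FF.IsFF k (L i) := fun i => isFF_of_finite (K := K)
  obtain ⟨PK, hPK, hPK1⟩ := exists_num_rel k K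
  choose PL hPL hPL1 using fun i => exists_num_rel k (L i)
  refine ⟨PK, PL, ⟨(S.isZetaNum_iff PK).2 hPK, hPK1.trans (by rw [S.classNumber_eq])⟩,
    fun i => ⟨(S.isZetaNum_iff _).2 (hPL i), (hPL1 i).trans (by rw [S.classNumber_eq])⟩,
    fun m hm => ?_⟩
  obtain ⟨G, hG⟩ := hm
  rw [S.lfun_eq hE] at hG
  have hmain := main_bound h6 hE hF hPK (constDeg_eq_one hK.algClosed) hPL m G hG
  have hsum : localSum k a b = ∑ᶠ v : FF.Place k K, localTerm v a b * twoPart v.deg := by
    unfold localSum
    simp only [S.deg_eq, S.localTerm_eq _ hE]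
  rw [← hsum] at hmain
  refine ⟨hmain, fun hodd => ?_⟩
  have h0 : ∑ i, muTwo (PL i) = 0 := Finset.sum_eq_zero fun i _ =>
    muTwo_odd (hPL1 i) (by rw [← S.classNumber_eq]; exact hodd i)
  have h1 : ∑ i, mu ((PL i).map (Int.castRingHom (ZMod 2))) = 0 := h0
  rw [h1] at hmain
  omega

end Pool.Agent.Results.MP_48b749_nt.TwoDescentBound
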