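import Pool.Agent.W313.Gr.Two

/-!
The growth of the order of vanishing of the `L`-function of an elliptic curve over a function field
in finite extensions, modulo two.
-/

set_option autoImplicit false
set_option linter.all false
set_option maxHeartbeats 4000000

open Polynomial Pool.Agent.W343.BSD Pool.Agent.W313.Gr

namespace Pool.Agent.Results.MP_48b749_nt.TwoDivisionGrowth

/-- Let `K` and `K'`, an extension of `K`, be function fields of curves over the finite field `k`
with `q` elements, of characteristic at least `5`, and `E : y ^ 2 = x ^ 3 + a x + b` an elliptic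
curve over `K`. Let `K[x] / (x ^ 3 + a x + b)` be the product of the fields `L i`, and let
`K'[x] / (x ^ 3 + a x + b)` be the product of the fields `L' i`. If
`L(T, E/K') = L(T, E/K) (1 - q T) ^ m G(T)` with an integral polynomial `G`, then `m` is at most
`twoOrder (K') - twoOrder (K)`. If this difference is not positive, the order of vanishing of
`L(T, E/K')` at `1 / q` is that of `L(T, E/K)`, and the rank conjecture for `E/K` implies that for
`E/K'`. -/
theorem result (k K K' : Type) [Field k] [Finite k] [Field K] [Algebra k K] [Field K']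
    [Algebra k K'] [Algebra K K'] [IsScalarTower k K K'] (h6 : (6 : k) ≠ 0)
    (hK : IsCurveField k K) (hK' : IsCurveField k K') (a b : K)
    (hE : 4 * a ^ 3 + 27 * b ^ 2 ≠ 0) (ι ι' : Type) [Fintype ι] [Fintype ι'] (L : ι → Type)
    (L' : ι' → Type) [∀ i, Field (L i)] [∀ i, Algebra k (L i)] [∀ i, Algebra K (L i)]
    [∀ i, IsScalarTower k K (L i)] [∀ i, Field (L' i)] [∀ i, Algebra k (L' i)]
    [∀ i, Algebra K' (L' i)] [∀ i, IsScalarTower k K' (L' i)] (θ : ∀ i, L i) (θ' : ∀ i, L' i)
    (hθ : IsTwoDivision a b θ)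
    (hθ' : IsTwoDivision (algebraMap K K' a) (algebraMap K K' b) θ') :
    ∃ (P P' : ℤ[X]) (PL : ι → ℤ[X]) (PL' : ι' → ℤ[X]), IsNumerator k K P ∧ IsNumerator k K' P' ∧
      (∀ i, IsNumerator k (L i) (PL i)) ∧ (∀ i, IsNumerator k (L' i) (PL' i)) ∧
      (∀ m : ℕ, Grows k K' a b m →
        (m : ℤ) ≤ twoOrder k (algebraMap K K' a) (algebraMap K K' b) L' P' PL' -
          twoOrder k a b L P PL) ∧
      (twoOrder k (algebraMap K K' a) (algebraMap K K' b) L' P' PL' ≤ twoOrder k a b L P PL →
        NoGrowth k K' a b) := by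
  have hFF : FF.IsFF k K := ⟨hK.essFiniteType, hK.trdeg_eq_one⟩
  have hFF' : FF.IsFF k K' := ⟨hK'.essFiniteType, hK'.trdeg_eq_one⟩
  have hc := constDeg_eq_one hK.algClosed
  have hc' := constDeg_eq_one hK'.algClosed
  have hE' : 4 * algebraMap K K' a ^ 3 + 27 * algebraMap K K' b ^ 2 ≠ 0 := by
    rw [disc_map]
    exact (_root_.map_ne_zero _).2 hE
  obtain ⟨P, hP, hP1⟩ := exists_num_rel k K
  obtain ⟨P', hP', hP1'⟩ := exists_num_rel k K'
  have hF := isFamily_of_prod hE hθ.1 hθ.2
  have hF' := isFamily_of_prod hE' hθ'.1 hθ'.2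
  have hfd := hF.fd
  have hfd' := hF'.fd
  have hFFL : ∀ i, FF.IsFF k (L i) := fun i => isFF_of_finite (K := K)
  have hFFL' : ∀ i, FF.IsFF k (L' i) := fun i => isFF_of_finite (K := K')
  choose PL hPL hPL1 using fun i => exists_num_rel k (L i)
  choose PL' hPL' hPL1' using fun i => exists_num_rel k (L' i)
  refine ⟨P, P', PL, PL', ⟨(S.isZetaNum_iff P).2 hP, hP1.trans (by rw [S.classNumber_eq])⟩,
    ⟨(S.isZetaNum_iff P').2 hP', hP1'.trans (by rw [S.classNumber_eq])⟩,
    fun i => ⟨(S.isZetaNum_iff _).2 (hPL i), (hPL1 i).trans (by rw [S.classNumber_eq])⟩,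
    fun i => ⟨(S.isZetaNum_iff _).2 (hPL' i), (hPL1' i).trans (by rw [S.classNumber_eq])⟩,
    fun m hm => growth h6 hE hF hF' hP hc hPL hP' hc' hPL' hm, fun hle => ?_⟩
  refine noGrowth_of hE fun m hm => ?_
  have h := growth h6 hE hF hF' hP hc hPL hP' hc' hPL' hm
  omega

end Pool.Agent.Results.MP_48b749_nt.TwoDivisionGrowth
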